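import Pool.Agent.helper26.EC.SpecS

/-!
# Project EC (MP_5628fe_nt): wide counting, combinatorics of the switching, assembly (rows `ec:XX`)

RULES as in SpecS.lean, but `import Pool.Agent.helper26.EC.SpecW`.  Statements of SpecS and Defs (PRM, SWI, CMP) may be
hypotheses.  Cell `j`: the primes of `[N^(3j/962), N^(3(j+1)/962))`.
-/

set_option autoImplicit false

namespace Pool.Agent.EC

open Finset ArithmeticFunction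
open Pool.Agent.CH (Win)

/-- lower exponents of the cells `j` -/
noncomputable def aJ {r : ℕ} (j : Fin r → ℕ) (i : Fin r) : ℝ := 3 * (j i : ℝ) / 962
/-- upper exponents of the cells `j` -/
noncomputable def bJ {r : ℕ} (j : Fin r → ℕ) (i : Fin r) : ℝ := 3 * ((j i : ℝ) + 1) / 962

/-- the cells: `b = true`: the first prime is in `[z, y)`, the others are `≥ y`; `b = false`: all are `≥ y`; the last prime
(not listed) is at least `y`, so the sum is at most `861` -/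
def JJ (b : Bool) (r : ℕ) : Finset (Fin r → ℕ) :=
  (Fintype.piFinset fun i : Fin r => if b = true ∧ i.val = 0 then Ico 30 101 else Ico 100 481).filter
    fun j => ∑ i, j i ≤ 861

/-- the weight of a tuple of cells with sum `σ` -/
noncomputable def om (b : Bool) (r σ : ℕ) : ℝ :=
  if b = true then (if σ ≤ 481 then 1 / 2 / ((r - 1).factorial : ℝ) else 1 / 2 / (r.factorial : ℝ))
  else (if σ ≤ 481 then 1 / (r.factorial : ℝ) else 1 / ((r + 1).factorial : ℝ))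

/-- `962 / (962 - σ - r)` -/
noncomputable def ph (r σ : ℕ) : ℝ := 962 / (962 - (σ : ℝ) - r)

/-- the majorant `T0 + (1/2) T1` of the switched sets -/
noncomputable def TS (N m : ℕ) : ℝ :=
  ∑ b : Bool, ∑ r ∈ Icc 4 9, ∑ j ∈ JJ b r,
    om b r (∑ i, j i) * ph r (∑ i, j i) / (3 * Real.log N) * TL N (aJ j) (bJ j) m

/-! ## Part A: wide intervals -/

/-- **MCL** (short, medium).  From CH.MER.  `Σ_{a ≤ p ≤ b} 1/p ≤ log (log b/log a) + C/log a` with `a = N^(3j/962)`, `b = N^(3(j+1)/962)`. -/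
def MCL_stmt : Prop := ∀ j : ℕ, 1 ≤ j → ∀ κ : ℝ, 0 < κ → ∃ N₀ : ℕ, ∀ N : ℕ, N₀ ≤ N → ∀ S : Finset ℕ,
  (∀ p ∈ S, p.Prime ∧ (N : ℝ) ^ (3 * (j : ℝ) / 962) ≤ (p : ℝ) ∧ (p : ℝ) < (N : ℝ) ^ (3 * ((j : ℝ) + 1) / 962)) →
  ∑ p ∈ S, 1 / (p : ℝ) ≤ Real.log (((j : ℝ) + 1) / j) + κ

/-- **WCT** (medium, long).  From MCL.  The sum is at most `∑_p (ψ((u+h)/P) - ψ(u/P))` over the tuples `p` of primes in the
cells (all `≤ N^3`), `P = ∏ p i < N^(3 c)`, `c = ∑ (j i + 1)/962 < 1`, `v = u/P ≥ N^(3(1-c))/2`.  `psi_pnt`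
(`Pool.Agent.helper74.TG.psi_pnt`, used in Pool/Agent/helper92/CH/PI.lean) with exponent `B + 1` and `h/P ≥ v/(log N)^B`:
`ψ(v + h/P) - ψ(v) ≤ (1 + κ') h/P`.  Finally `∑_p 1/P ≤ ∏_i ∑_{cell j i} 1/p ≤ ∏ (log ((j i + 1)/j i) + κ')`. -/
def WCT_stmt : Prop := ∀ (r : ℕ) (j : Fin r → ℕ), (∀ i, 1 ≤ j i) → ∑ i, (j i + 1) < 962 → ∀ κ : ℝ, 0 < κ →
  ∀ B : ℕ, ∃ N₀ : ℕ, ∀ N : ℕ, N₀ ≤ N → ∀ u h : ℝ, (N : ℝ) ^ 3 / 2 ≤ u → u ≤ 4 * (N : ℝ) ^ 3 →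
    u / Real.log N ^ B ≤ h → h ≤ u →
    ∑ m ∈ Ioc ⌊u⌋₊ ⌊u + h⌋₊, TL N (aJ j) (bJ j) m ≤ (∏ i, Real.log (((j i : ℝ) + 1) / j i) + κ) * h

/-! ## Part B: the constant of the switched sets by the kernel -/

/-- the base -/
def Bs : ℕ := 2 ^ 400
/-- `∑_{i < n} f i Bs^i` -/
def bld (f : ℕ → ℕ) : ℕ → ℕ
  | 0 => 0
  | n + 1 => bld f n + f n * Bs ^ n
/-- upper bound of `2^30 log ((j+1)/j)` -/
def mN (j : ℕ) : ℕ := (2 ^ 30 * (2 * j + 1)) / (2 * j * (j + 1)) + 1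
/-- masses of the cells `a ≤ j < b` -/
def mI (a b j : ℕ) : ℕ := if Nat.ble a j && Nat.blt j b then mN j else 0
/-- the numbers for `y` and `z` -/
def PY : ℕ := bld (mI 100 481) 862
def PZ' : ℕ := bld (mI 30 101) 862
/-- powers of `PY` modulo `Bs^862` -/
def PW : ℕ → ℕ
  | 0 => 1
  | r + 1 => (PW r * PY) % Bs ^ 862
/-- `10^9`-fold of the weights `om · ph`, rounded up -/
def wN (b : Bool) (r σ : ℕ) : ℕ :=
  if b = true then (962 * 10 ^ 9) / (2 * (if Nat.ble σ 481 then (r - 1).factorial else r.factorial) * (962 - σ - r)) + 1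
  else (962 * 10 ^ 9) / ((if Nat.ble σ 481 then r.factorial else (r + 1).factorial) * (962 - σ - r)) + 1
/-- the coefficient of the product with the reversed weights -/
def cof (b : Bool) (r : ℕ) : ℕ :=
  ((if b = true then (PW (r - 1) * PZ') % Bs ^ 862 else PW r) * bld (fun i => wN b r (861 - i)) 862 / Bs ^ 861) % Bs

/-- **KR2** (helper26).  The kernel check: `∑ cof / (2^(30 r) 10^9) ≤ 0.435`. -/
def KR2_stmt : Prop :=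
  (∑ b : Bool, ∑ r ∈ Icc 4 9, cof b r * 2 ^ (30 * (9 - r))) ≤ 435 * 10 ^ 6 * 2 ^ 270

/-- **KRN** (medium, short).  Digits: `bld f n * bld g n = bld (conv) n + Bs^n (...)` and `bld (conv) n < Bs^n` if all digits
are `< Bs` (`∑_{i<n} (Bs - 1) Bs^i = Bs^n - 1`); the digit `k` of `bld f n` is `f k`. -/
def KRN_stmt : Prop :=
  (∀ (f g : ℕ → ℕ) (n : ℕ), (∀ k < n, ∑ i ∈ range (k + 1), f i * g (k - i) < Bs) →
    (bld f n * bld g n) % Bs ^ n = bld (fun k => ∑ i ∈ range (k + 1), f i * g (k - i)) n) ∧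
  (∀ (f : ℕ → ℕ) (n k : ℕ), (∀ i < n, f i < Bs) → k < n → bld f n / Bs ^ k % Bs = f k) ∧
  ∀ (f g : ℕ → ℕ) (n k : ℕ), k < n → (∀ m ≤ k, ∑ i ∈ range (m + 1), f i * g (m - i) < Bs) →
    (bld f n * bld g n) / Bs ^ k % Bs = ∑ i ∈ range (k + 1), f i * g (k - i)

/-- the convolution powers of the masses: all `r` cells in `[100, 481)`, resp. the first one in `[30, 101)` -/
def cN (b : Bool) : ℕ → ℕ → ℕ
  | 0, σ => if σ = 0 then 1 else 0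
  | r + 1, σ => ∑ i ∈ range (σ + 1), cN false r (σ - i) * (if b = true then mI 30 101 i else mI 100 481 i)

/-- **DPN** (medium).  From KRN.  `PW r = bld (cN false r) 862` for `r ≤ 9`, `(PW (r-1) * PZ') % Bs^862 = bld (cN true r) 862` for
`1 ≤ r ≤ 9`; all digits are `≤ (∑_j mN j)^9 ≤ (2^32)^9 < Bs` (`∑_{30 ≤ j < 481} mN j ≤ 2^30 · 3.5`, e.g. by `decide +kernel`), with the
weights (`≤ 10^12` each) `≤ 2^288 · 862 · 2^40 < 2^400`. -/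
def DPN_stmt : Prop := ∀ (b : Bool) (r : ℕ), 4 ≤ r → r ≤ 9 →
  cof b r = ∑ σ ∈ range 862, cN b r σ * wN b r σ

/-- **DPR** (medium).  From DPN, KR2.  `log ((j+1)/j) ≤ (2j+1)/(2j(j+1)) ≤ mN j/2^30`.  By induction on `r` (split off the last
coordinate, `Fin.snoc`, or the first): for every `Φ ≥ 0`,
`∑_{j ∈ JJ b r} ∏ log ((j i + 1)/j i) Φ(∑ j) ≤ ∑_{σ ≤ 861} cN b r σ/2^(30 r) Φ(σ)`; and `om b r σ ph r σ ≤ wN b r σ/10^9` for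
`σ ≤ 861`, `4 ≤ r ≤ 9` (`962 - σ - r ≥ 92`). -/
def DPR_stmt : Prop :=
  ∑ b : Bool, ∑ r ∈ Icc 4 9, ∑ j ∈ JJ b r,
    om b r (∑ i, j i) * ph r (∑ i, j i) * ∏ i, Real.log (((j i : ℝ) + 1) / j i) ≤ 435 / 1000

/-! ## Part C: combinatorics of the switching -/

open Classical in
/-- the weight of `a = p + 6` before switching -/
noncomputable def psi0 (N a : ℕ) : ℝ :=
  if ∃ q : ℕ, q.Prime ∧ q ∣ a ∧ 7 ≤ q ∧ (q : ℝ) < (N : ℝ) ^ az then 0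
  else 1 - 1 / 2 * (#(a.primeFactors.filter fun q : ℕ => (N : ℝ) ^ az ≤ (q : ℝ) ∧ (q : ℝ) < (N : ℝ) ^ ay) : ℝ)

/-- **TSB** (medium).  `TL ≥ 0`, `om, ph ≥ 0` on `JJ`.  Upper bound: for every `b, r` the tuples `p` counted in `∑_j TL` are different
`r`-tuples of prime divisors `≥ N^(90/962)` of `m ≤ 8N³ ≤ N^6`, at most `65^r` of them (for `m = 0` there are none); `Λ ≤ log m ≤ 6 log N`;
`om ≤ 1`, `ph ≤ 962/92`. -/
def TSB_stmt : Prop := ∃ C : ℝ, 0 < C ∧ ∀ N : ℕ, 2 ≤ N → ∀ m : ℕ, 0 ≤ TS N m ∧ (m ≤ 8 * N ^ 3 → TS N m ≤ C)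

/-- **CM0** (medium, long; no prime factor in `[z,y)`).  Let `a` be the product of `k ≥ 5` different primes `≥ N^ay`,
`N³ < a ≤ (N+1)³`.  Then `k ≤ 9` (`10 ay > 3`).  `r = k - 1`.  If the largest prime `P` is `≥ N^(3/2)` take the `r!` orderings of the
others: each `p i < N^(3/2)` (`p i P ≤ a/N^(3 ay)`), cells `100 ≤ j i < 481` (`3·100/962 ≤ ay`), `∑ j ≤ 481` (`∏ p i = a/P ≤ (N+1)³/N^(3/2)`).
Otherwise take all `k!` ways to choose and order `r` of the primes, `∑ j ≤ 861` (`∏ p i ≤ (N+1)³/N^ay` and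
`962 (3 - ay)/3 = 861.99`).  `m = a/∏ p i` is the remaining prime, `Λ = log`, `log (a/∏ p i) ≥ 3 log N (1 - ∑(j i+1)/962)`, so every
tuple contributes at least `om`, `= 1/r!` in the first case, `≥ 1/k!` in the second.  Different tuples `p` with the
same cells are different terms of `TL`, and tuples with different cells belong to different `j`. -/
def CM0_stmt : Prop := ∃ N₀ : ℕ, ∀ N : ℕ, N₀ ≤ N → ∀ a : ℕ, N ^ 3 < a → a ≤ (N + 1) ^ 3 → Squarefree a →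
  (∀ q ∈ a.primeFactors, (N : ℝ) ^ ay ≤ (q : ℝ)) → 5 ≤ #a.primeFactors → 1 ≤ TS N a

/-- **CM1** (medium, long; exactly one prime factor in `[z,y)`).  As CM0: first coordinate = the small prime `q₀` (cell in
`[30, 101)`: `3·30/962 ≤ az`, `ay < 3·101/962`), `k ≤ 10`, `r = k - 1`: `r` primes `≥ N^ay`.  If the largest prime is `≥ N^(3/2)`: it is last, the
`(r-1)!` orderings of the other large ones, `om = 1/2/(r-1)!`; otherwise `r!` tuples, `om ≥ 1/2/r!`. -/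
def CM1_stmt : Prop := ∃ N₀ : ℕ, ∀ N : ℕ, N₀ ≤ N → ∀ a q₀ : ℕ, N ^ 3 < a → a ≤ (N + 1) ^ 3 → Squarefree a →
  q₀ ∈ a.primeFactors → (N : ℝ) ^ az ≤ (q₀ : ℝ) → (q₀ : ℝ) < (N : ℝ) ^ ay →
  (∀ q ∈ a.primeFactors, q ≠ q₀ → (N : ℝ) ^ ay ≤ (q : ℝ)) → 5 ≤ #a.primeFactors → 1 / 2 ≤ TS N a

/-- **COM** (medium, short).  From CM0, CM1, TSB.  `psi0 > 0` (`TS ≥ 0`), so no prime factor in `[7, z)`, with `(a,30) = 1` all
prime factors are `≥ z` and simple; `a` is squarefree; `psi0 = 1 - k₁/2`, `k₁ ≤ 1` the number of prime factors in `[z,y)`.  If there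
are at least five prime factors: CM0 resp. CM1 contradict.  `q^11 ≥ N^(11 az) > N`. -/
def COM_stmt : Prop := ∃ N₀ : ℕ, ∀ N : ℕ, N₀ ≤ N → ∀ a : ℕ, N ^ 3 < a → a ≤ (N + 1) ^ 3 → Nat.Coprime a 30 →
  (∀ q : ℕ, q.Prime → (N : ℝ) ^ az ≤ (q : ℝ) → ¬ q ^ 2 ∣ a) → 0 < psi0 N a - TS N a →
  cardFactors a ≤ 4 ∧ ∀ q ∈ a.primeFactors, N < q ^ 11

/-! ## Part D: assembly -/

/-- the primes counted in the theorem -/
noncomputable def G4 (N : ℕ) : Finset ℕ := (Ioo (N ^ 3) ((N + 1) ^ 3)).filter fun p =>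
  p.Prime ∧ p + 6 < (N + 1) ^ 3 ∧ p % 30 = 1 ∧ cardFactors (p + 6) ≤ 4 ∧ ∀ q ∈ (p + 6).primeFactors, N < q ^ 11

/-- **XNB** (short, medium).  Support of `fN`: `|log j - v| < 1/N` gives `3 log N + 1/(4N) < log j < 3 log N + 9/(4N)
< 3 log (N+1) - 1/(4N)` for `N ≥ 20`, so `N³ < j` and `j + 6 < (N+1)³`.  Lipschitz: `|log (j+6) - log j| ≤ 6/j`.  Mass: `fN ≤ 1`,
`#(Win N) = 3N² + 3N + 1`; `fN ≥ 1/2` for the `j` with `|log j - v| ≤ 1/(2N)`, an interval of length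
`≥ e^(v-1/(2N)) (e^(1/N) - 1) ≥ N²`, so `XN ≥ (N² - 1)/2`. -/
def XNB_stmt : Prop := ∃ N₀ : ℕ, ∀ N : ℕ, N₀ ≤ N → (N : ℝ) ^ 2 / 4 ≤ XN N ∧ XN N ≤ 4 * (N : ℝ) ^ 2 ∧
  ∀ j : ℕ, 0 ≤ fN N j ∧ fN N j ≤ 1 ∧ (1 ≤ j → fN N j ≠ 0 → N ^ 3 < j ∧ j + 6 < (N + 1) ^ 3) ∧
    (N ^ 3 ≤ j → |fN N j - fN N (j + 6)| ≤ 6 / (N : ℝ) ^ 2)

open Classical in
/-- **SQ4** (short, medium).  As SQB_stmt of project CH (Pool/Agent/helper98/CH/SQB.lean; its second half gives the prime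
powers).  Multiples of `q²`: `≤ #(Win N)/q² + 1`, `q ≤ 3N^(3/2)`, `∑_{q ≥ z} 1/q² ≤ 2/z`, `z = N^az`, `az > 0.09`: total
`≤ 14 N^(2-az) + 3 N^(3/2)`. -/
def SQ4_stmt : Prop := ∃ N₀ : ℕ, ∀ N : ℕ, N₀ ≤ N →
  (#((Win N).filter fun j : ℕ => ∃ q : ℕ, q.Prime ∧ (N : ℝ) ^ az ≤ (q : ℝ) ∧ q ^ 2 ∣ j + 6) : ℝ) ≤
    (N : ℝ) ^ (39 / 20 : ℝ) / 4 ∧
  (#((Win N).filter fun j : ℕ => ¬ j.Prime ∧ vonMangoldt j ≠ 0) : ℝ) ≤ (N : ℝ) ^ (39 / 20 : ℝ) / 4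

open Classical in
/-- **WND** (medium, long; one window; compare WIN_stmt in helper17/CH/SpecQ.lean, Pool/Agent/helper11/CH/WIN.lean).  From COM, TSB, XNB,
SQ4.  `Λ(j) f(j) wt l₁ (j+6) ≤ log j f(j) psi0 (j+6)` for primes `j`, `≤ log j` for the prime powers (`psi0 ≤ 1`, `f ≤ 1`).
For primes `j`, `f(j) ≠ 0`, `a = j + 6 ≡ 7 mod 30`: `psi0 a ≤ [j ∈ G4] + [q² ∣ a, q ≥ z] + TS a` (COM; `psi0 ≤ 1`, `TS ≥ 0`).
`∑_{j prime} f(j) TS(j+6) ≤ ∑ f(j+6) TS(j+6) + C·6/N²·#Win`, and with `m = j + 6`: `1 ≤ wt l₂ (m-6)` as `j` is a prime `> N^a2`;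
the other `m` contribute `≥ 0`. -/
def WND_stmt : Prop := ∃ N₀ : ℕ, ∀ N : ℕ, N₀ ≤ N → ∀ l₁ l₂ : ℕ → ℝ,
  (∀ a : ℕ, 1 ≤ a → wt l₁ a ≤ psi0 N a) →
  (∀ a : ℕ, 1 ≤ a → (if ∃ q : ℕ, q.Prime ∧ q ∣ a ∧ 7 ≤ q ∧ (q : ℝ) < (N : ℝ) ^ a2 then (0 : ℝ) else 1) ≤ wt l₂ a) →
  ∑ j ∈ Win N with j % 30 = 1, vonMangoldt j * fN N j * wt l₁ (j + 6) -
    3 * Real.log (N + 1) * ∑ m ∈ Win N with m % 30 = 7, TS N m * fN N m * wt l₂ (m - 6) ≤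
    3 * Real.log (N + 1) * ((#(G4 N) : ℝ) + (N : ℝ) ^ (39 / 20 : ℝ))

/-- **SWT** (medium).  From SWI, CMP, WCT, DPR, XNB.  `AdT (aJ j) (bJ j)` for `j ∈ JJ b r`, `4 ≤ r ≤ 9`: `bJ ≤ 3·481/962 = 3/2`,
`∑ bJ ≤ 3 (861 + 9)/962 < 3`, `∑ aJ ≥ 3 (30 + 3·100)/962 > 1`.  SWI (with `ε = 1/2000`, `K`) for each of the finitely many `j`, multiplied by the coefficient
`om ph/(3 log N) ≥ 0` and summed; CMP with `D = ∏ log ((j i+1)/j i) + κ` from WCT: `∑ TL f ≤ (∏ log + 2κ) XN`; DPR; `XN ≤ 4N²`,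
`mt ≤ K/log N`. -/
def SWT_stmt : Prop := ∀ ε' K : ℝ, 0 < ε' → 0 < K → ∃ N₀ : ℕ, ∀ N : ℕ, N₀ ≤ N → ∀ l : ℕ → ℝ, Adm K (QL N) l →
  (∀ a : ℕ, 1 ≤ a → 0 ≤ wt l a) → 0 ≤ mt (QL N) l → mt (QL N) l ≤ K / Real.log N →
  ∑ m ∈ Win N with m % 30 = 7, TS N m * fN N m * wt l (m - 6) ≤
    1 / 8 * (435 / 1000) * (XN N / (3 * Real.log N)) * mt (QL N) l + ε' * (N : ℝ) ^ 2 / Real.log N ^ 2

/-- **FN** (medium).  From PRM, SLW, SWT, WND, XNB.  `L = log N`, `c₀, K` from SLW, PRM with `ε = 1/2000`, `max K 8`, `ε'` small: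
`(X/8) mt l₁ - ε' N²/L - 3 log (N+1) ((1/8)(0.435)(X/(3L)) mt l₂ + ε' N²/L²) ≤ 3 log (N+1) (#G4 + N^1.95)`; as
`0.435 log (N+1)/L ≤ 0.445` and `mt l₂ ≥ 0` the left side is `≥ (X/8) c₀/L - 5 ε' N²/L ≥ c₀ N²/(64 L)` (`X ≥ N²/4`). -/
def FN_stmt : Prop := ∃ c : ℝ, 0 < c ∧ ∃ N₀ : ℕ, ∀ N : ℕ, N₀ ≤ N →
  c * (N : ℝ) ^ 2 / Real.log N ^ 2 ≤ (#(G4 N) : ℝ)

end Pool.Agent.EC
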