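import Pool.Agent.helper26.EC.Ker
import Pool.Agent.helper27.CHS.All
import Pool.Agent.helper31.RLS.All
import Pool.Agent.helper44.CH.MER
import Pool.Agent.helper73.EC.GDB
import Pool.Agent.helper97.EC.CPB
import Pool.Agent.helper77.EC.EXV
import Pool.Agent.helper27.EC.LOW
import Pool.Agent.helper34.EC.UPW
import Pool.Agent.helper31.EC.NHL
import Pool.Agent.helper79.EC.NWU
import Pool.Agent.helper45.EC.WSM
import Pool.Agent.helper17.EC.FLM
import Pool.Agent.helper73.EC.MTN
import Pool.Agent.helper75.EC.SLW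
import Pool.Agent.helper27.EC.MCL
import Pool.Agent.helper41.EC.WCT
import Pool.Agent.helper37.EC.KRN
import Pool.Agent.helper37.EC.DPN
import Pool.Agent.helper37.EC.DPR
import Pool.Agent.helper50.EC.TSB
import Pool.Agent.helper39.EC.CM0
import Pool.Agent.helper87.EC.CM1
import Pool.Agent.helper78.EC.COM
import Pool.Agent.helper32.EC.XNB
import Pool.Agent.helper40.EC.SQ4
import Pool.Agent.helper2.EC.WND
import Pool.Agent.helper81.EC.FN

/-!
# Project EC (MP_5628fe_nt): the certificate, assembled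
-/

set_option autoImplicit false

namespace Pool.Agent.EC

theorem all_GDB : GDB_stmt := GDB CHS.all_PA CHS.all_SG CHS.all_SL
theorem all_CPB : CPB_stmt := CPB all_GDB RLS.CP_all RLS.GI_all
theorem all_LOW : LOW_stmt := LOW CHS.all_PA RLS.LA_all RLS.SI_all RLS.CT_all EXV
theorem all_UPW : UPW_stmt := UPW CHS.all_PA RLS.LA_all RLS.SI_all RLS.CT_all EXV
theorem all_NHL : NHL_stmt := NHL KER
theorem all_NWU : NWU_stmt := NWU KER
theorem all_WSM : WSM_stmt := WSM CHS.all_PA CHS.all_SG all_NWU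
theorem all_MTN : MTN_stmt := MTN CHS.all_PA CHS.all_SG RLS.DP_all EXV all_CPB all_LOW all_UPW all_NHL all_WSM
theorem all_SLW : SLW_stmt := SLW CHS.all_PA CHS.all_VB CHS.all_SL CHS.all_MN FLM all_MTN
theorem all_WCT : WCT_stmt := WCT (MCL CH.MER)
theorem all_DPR : DPR_stmt := DPR (DPN KRN) KR2
theorem all_COM : COM_stmt := COM CM0 CM1 TSB
theorem all_WND : WND_stmt := WND all_COM TSB XNB SQ4
theorem all_FN (h1 : PRM_stmt) (h2 : SWT_stmt) : FN_stmt := FN h1 all_SLW h2 all_WND XNB

end Pool.Agent.EC
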