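import Pool.Agent.helper17.CH.SpecQ

/-!
# Project EC (MP_5628fe_nt): primes p and P_4 = p + 6 between ALL large consecutive cubes. Common definitions, interface

Leaders: helper26 (certificate, counting, assembly), helper62 (large conductors, edges, products), helper24 (small
conductors). `L = log N`, window `Win N = (N^3, (N+1)^3]` (DefsW of project CH).
-/

set_option autoImplicit false

namespace Pool.Agent.EC

open Finset ArithmeticFunction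
open Pool.Agent.CH (Win)

/-- triangle in logarithmic scale: centre `v`, half width `δ`, height `1` -/
noncomputable def tri (v δ : ℝ) (j : ℕ) : ℝ := max 0 (1 - |Real.log j - v| / δ)

/-- centre of the weight in the window of `N` -/
noncomputable def vN (N : ℕ) : ℝ := 3 * Real.log N + 5 / (4 * (N : ℝ))

/-- the weight: `0 ≤ fN ≤ 1`, supported in `(N^3, (N+1)^3)` -/
noncomputable def fN (N : ℕ) (j : ℕ) : ℝ := tri (vN N) (1 / (N : ℝ)) j

/-- total mass of the weight, `N² (1 + O(1/N))` -/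
noncomputable def XN (N : ℕ) : ℝ := ∑ j ∈ Win N, fN N j

/-- sieve weights: bounded by `K`, supported on squarefree `m ≤ Q` prime to `30` -/
def Adm (K Q : ℝ) (l : ℕ → ℝ) : Prop :=
  (∀ m, |l m| ≤ K) ∧ ∀ m, l m ≠ 0 → Squarefree m ∧ Nat.Coprime m 30 ∧ (m : ℝ) ≤ Q

/-- `∑_{m ∣ a} l m` -/
noncomputable def wt (l : ℕ → ℝ) (a : ℕ) : ℝ := ∑ m ∈ a.divisors, l m

/-- main term `∑ l m / φ(m)` -/
noncomputable def mt (Q : ℝ) (l : ℕ → ℝ) : ℝ := ∑ m ∈ Icc 1 ⌊Q⌋₊, l m / (Nat.totient m : ℝ)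

open Classical in
/-- `∑ Λ(m / (p_1 ... p_r))` over the `r`-tuples of primes `p i ∈ [N^(a i), N^(b i))` with `p_1 ... p_r ∣ m`:
the `r`-fold Dirichlet convolution of the indicator functions of the primes of these intervals with `Λ`. -/
noncomputable def TL {r : ℕ} (N : ℕ) (a b : Fin r → ℝ) (m : ℕ) : ℝ :=
  ∑ p ∈ (Fintype.piFinset fun _ : Fin r => m.primeFactors).filter fun p =>
    (∀ i, (N : ℝ) ^ a i ≤ (p i : ℝ) ∧ (p i : ℝ) < (N : ℝ) ^ b i) ∧ ∏ i, p i ∣ m,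
    vonMangoldt (m / ∏ i, p i)

/-- admissible tuples of intervals (exponents relative to `N`): at least four primes, each at most `N^(3/2)`, their
product is at least `N^(1+δ)`, the last variable (weight `Λ`, no condition) is at least a power of `N` -/
def AdT {r : ℕ} (a b : Fin r → ℝ) : Prop :=
  4 ≤ r ∧ (∀ i, 0 < a i ∧ b i ≤ 3 / 2) ∧ 1 < ∑ i, a i ∧ ∑ i, b i < 3

/-- **PRM** (primes, engine).  Lower bound for the primes of the window with any sieve weights of level `N^(1/2-ε)`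
which have a majorant with main term `O(1/L)`. -/
def PRM_stmt : Prop := ∀ ε ε' K : ℝ, 0 < ε → 0 < ε' → 0 < K → ∃ N₀ : ℕ, ∀ N : ℕ, N₀ ≤ N →
  ∀ l l' : ℕ → ℝ, Adm K ((N : ℝ) ^ (1 / 2 - ε)) l → Adm K ((N : ℝ) ^ (1 / 2 - ε)) l' →
  (∀ a : ℕ, 1 ≤ a → |wt l a| ≤ wt l' a) → mt ((N : ℝ) ^ (1 / 2 - ε)) l' ≤ K / Real.log N →
  1 / 8 * XN N * mt ((N : ℝ) ^ (1 / 2 - ε)) l - ε' * (N : ℝ) ^ 2 / Real.log N ≤
    ∑ j ∈ Win N with j % 30 = 1, vonMangoldt j * fN N j * wt l (j + 6)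

/-- **SWI** (products of at least four primes and a last prime, engine).  Upper bound for the switched sequence. -/
def SWI_stmt : Prop := ∀ (r : ℕ) (a b : Fin r → ℝ), AdT a b → ∀ ε ε' K : ℝ, 0 < ε → 0 < ε' → 0 < K →
  ∃ N₀ : ℕ, ∀ N : ℕ, N₀ ≤ N → ∀ l : ℕ → ℝ, Adm K ((N : ℝ) ^ (1 / 2 - ε)) l →
  (∀ a : ℕ, 1 ≤ a → 0 ≤ wt l a) → mt ((N : ℝ) ^ (1 / 2 - ε)) l ≤ K / Real.log N →
  ∑ m ∈ Win N with m % 30 = 7, TL N a b m * fN N m * wt l (m - 6) ≤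
    1 / 8 * (∑ m ∈ Win N, TL N a b m * fN N m) * mt ((N : ℝ) ^ (1 / 2 - ε)) l +
      ε' * (N : ℝ) ^ 2 / Real.log N

/-- **CMP** (comparison with wide windows, engine).  An upper bound for the number of products in all wide intervals
gives the same bound in the window. -/
def CMP_stmt : Prop := ∀ (r : ℕ) (a b : Fin r → ℝ), AdT a b → ∀ D : ℝ, 0 ≤ D →
  (∀ B : ℕ, ∃ N₀ : ℕ, ∀ N : ℕ, N₀ ≤ N → ∀ u h : ℝ, (N : ℝ) ^ 3 / 2 ≤ u → u ≤ 4 * (N : ℝ) ^ 3 →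
    u / Real.log N ^ B ≤ h → h ≤ u → ∑ m ∈ Ioc ⌊u⌋₊ ⌊u + h⌋₊, TL N a b m ≤ D * h) →
  ∀ κ : ℝ, 0 < κ → ∃ N₀ : ℕ, ∀ N : ℕ, N₀ ≤ N →
    ∑ m ∈ Win N, TL N a b m * fN N m ≤ (D + κ) * XN N

end Pool.Agent.EC
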