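import Pool.Agent.helper26.EC.All
import Pool.Agent.helper62.W3.All
import Pool.Agent.helper40.CH.RC
import Pool.Agent.helper78.W3.TRA
import Pool.Agent.helper50.EC.MTE
import Pool.Agent.helper82.EC.MTP
import Pool.Agent.helper49.EC.CPD
import Pool.Agent.helper87.EC.CRR
import Pool.Agent.helper82.EC.CRD
import Pool.Agent.helper81.EC.UPS
import Pool.Agent.helper89.EC.LCT
import Pool.Agent.helper73.EC.COR
import Pool.Agent.helper85.EC.RCS
import Pool.Agent.helper83.EC.EDG
import Pool.Agent.helper83.EC.EDP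
import Pool.Agent.helper73.EC.TLC
import Pool.Agent.helper68.EC.PPW
import Pool.Agent.helper73.EC.TLM
import Pool.Agent.helper41.EC.EDT
import Pool.Agent.helper85.EC.TLF
import Pool.Agent.helper87.EC.GVT
import Pool.Agent.helper98.EC.SWE
import Pool.Agent.helper73.EC.SWT

/-!
# Project EC (MP_5628fe_nt): block P and the theorem from the small conductors
-/

set_option autoImplicit false

namespace Pool.Agent.EC

theorem all_TRA : TRA_stmt := TRA TRB TRV
theorem all_CRD : CRD_stmt := CRD MTP MTA (CPD MTE) CRR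
theorem all_UPS : UPS_stmt := UPS CHS.all_PA CHS.all_SL FLM
theorem all_COR : COR_stmt := COR (LCT all_TRA) all_CRD all_UPS TRB MTA
theorem all_EDP : EDP_stmt := EDP all_COR (RCS CH.RC) EDG
theorem all_EDT : EDT_stmt := EDT all_COR TLM PPW MTA CH.MER

/-- products, from the small conductors -/
theorem SWI_of (h : SCT_stmt) : SWI_stmt := SWE TLC (GVT TLF BIM_all KKD h) all_EDT EXW MTA TRB

/-- the theorem, from the small conductors -/
theorem FN_of (h1 : SCL_stmt) (h2 : SCE_stmt) (h3 : PNW_stmt) (h4 : SCT_stmt) (h5 : CMP_stmt) : FN_stmt :=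
  all_FN (PRM_of h1 h2 h3 all_EDP) (SWT (SWI_of h4) h5 all_WCT all_DPR XNB)

end Pool.Agent.EC
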