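import Pool.Agent.helper26.EC.Eng
import Pool.Agent.helper24.SK.All

/-!
# Project EC (MP_5628fe_nt): the theorem
-/

set_option autoImplicit false

namespace Pool.Agent.EC

theorem FN_all : FN_stmt := FN_of SK.SCL_all SK.SCE_all SK.PNW_all SK.SCT_all SK.CMP_all

end Pool.Agent.EC
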