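import Pool.Agent.helper26.EC.SpecW

/-! # Project EC: the two kernel checks -/

set_option autoImplicit false
set_option maxRecDepth 100000

namespace Pool.Agent.EC

theorem KER : KER_stmt := by
  unfold KER_stmt
  decide +kernel

theorem KR2 : KR2_stmt := by
  unfold KR2_stmt
  decide +kernel

end Pool.Agent.EC
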