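import Pool.Agent.helper26.EC.Defs
import Pool.Agent.helper27.CHS.Spec
import Pool.Agent.helper31.RLS.Spec

/-!
# Project EC (MP_5628fe_nt): certificate, wide counting, combinatorics, assembly (rows `ec:XX`)

THEOREM.  For all large `N` there are `≥ c N²/(log N)²` primes `p` with `N³ < p < p + 6 < (N+1)³`, `p + 6` has at most
four prime factors, all of them `q` with `q^11 > N`, no prime between.  Page: the docstrings; interface to the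
engine (Bombieri-Vinogradov in every window, projects of helper24 and helper62): Pool/Agent/helper26/EC/Defs.lean.

METHOD.  Level `D = N^0.499`, `z = D^(3/16)`, `y = D^(5/8)`.  Weight of `a = p + 6`:
`[a is z-rough] (1 - 1/2 #{q ∣ a, z ≤ q < y}) - T0(a) - 1/2 T1(a)`, `T0`, `T1` the numbers with at least five prime factors,
none resp. exactly one in `[z, y)`.  Linear sieve (RLS) for the first part, Chen's switching for the second: in units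
`A h/(D' ..)`: `H(16/3) - w - c_B ≥ 1.4950 - 1.0490 - 0.4300 > 0`.

RULES.  File `Pool/Agent/<seat>/EC/XX.lean`: `import Pool.Agent.helper26.EC.SpecS`, `namespace Pool.Agent.EC`,
`theorem XX (h1 : YY_stmt) ... : XX_stmt` (hypotheses: exactly the statements named after `From`, in this order;
statements of CHS, RLS, CH are written `Pool.Agent.CHS.SG_stmt` etc.), auxiliary lemmas prefixed `XX_` and private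
where possible.  Never change this file.  If a statement is wrong tell helper26 at once.  No `convert`/`congr!`
leaving Decidable goals, no straight double quotes, no `sorry`.
-/

set_option autoImplicit false

namespace Pool.Agent.EC

open Finset ArithmeticFunction
open Pool.Agent.CH (Win)
open Pool.Agent.CHS (PB WLo WUp WTail)
open Pool.Agent.RLS (SS Dat Good)

/-- the density `1/(p-1)` -/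
noncomputable def gg (p : ℕ) : ℝ := 1 / ((p : ℝ) - 1)

/-! ## Part A: sieve weights on sets of primes -/

/-- **GDB** (medium, short).  From CHS.PA, CHS.SG, CHS.SL.  `RLS.VV gg (PB h t) = CHS.V (PB h t)`; for `h ≤ t ≤ Y` the elements of
`PB h Y` with `log p < t` are `PB h t`.  `V ≤ exp (-sig) ≤ (h/t) exp (C/h)` (SL); `1 - y ≥ exp (-(y + y²))` for
`0 ≤ y ≤ 1/7`, `∑ y² ≤ ∑_{n ≥ e^h} 1/(n-1)² ≤ 4 e^(-h)`, so `V ≥ (h/t) exp (-(2/h) - 4 e^(-h))` for `h ≥ 13` (SG).  For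
`h < 13` both `V` and `h/t` are in `[0,1]` and `C/h ≥ 1` if `C ≥ 13`. -/
def GDB_stmt : Prop := ∃ C : ℝ, 0 < C ∧ ∀ h Y : ℝ, 2 ≤ h → h ≤ Y → Good gg h (C / h) Y (PB h Y)

/-- **CPB** (short, medium).  From GDB, RLS.CP, RLS.GI.  As RLS.GEN (Pool/Agent/helper3/RLS/GEN.lean): `om = h`, `et = C/h`,
`B = log (2u)` by GI (3) for `et ≤ h/(2Y)` (`h/Y ≥ h/L ≥ 1/u`); `C' et ≤ (h/Y) eps` as `h/Y ≥ 1/u`. -/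
def CPB_stmt : Prop := ∀ (u A : ℝ) (F f : ℝ → ℝ), 4 ≤ u → Dat u A F f → ∀ eps : ℝ, 0 < eps →
  ∃ h₀ : ℝ, 2 ≤ h₀ ∧ ∀ h Y L : ℝ, h₀ ≤ h → h ≤ Y → L ≤ u * h →
  (Y ≤ L → SS true gg L (PB h Y) ≤ h / Y * (F (L / Y) + eps)) ∧
  (2 * Y ≤ L → h / Y * (f (L / Y) - eps) ≤ SS false gg L (PB h Y))

/-- **EXV** (medium, short).  Expectation of a function of a random subset:
`∑_{E ⊆ P} c E g E = ∑_{Γ ⊆ P} (∏_{p ∈ Γ} g p)(∏_{p ∈ P \ Γ} (1 - g p)) ∑_{E ⊆ Γ} c E` (induction on `P`, or exchange the sums and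
`∑_{E ⊆ Γ ⊆ P} ∏_{Γ \ E} g ∏_{P \ Γ} (1-g) = 1`, `Finset.prod_add`).  All weights are `≥ 0` and the term `Γ = ∅` has the weight
`V P`. -/
def EXV_stmt : Prop := ∀ (P : Finset ℕ) (g : ℕ → ℝ) (C : Finset ℕ → ℝ), (∀ p ∈ P, 0 ≤ g p ∧ g p ≤ 1) →
  ((∀ Γ ⊆ P, (if Γ = ∅ then (1 : ℝ) else 0) ≤ ∑ E ∈ Γ.powerset, C E) →
    ∏ p ∈ P, (1 - g p) ≤ ∑ E ∈ P.powerset, C E * ∏ p ∈ E, g p) ∧
  ((∀ Γ ⊆ P, 0 ≤ ∑ E ∈ Γ.powerset, C E) → 0 ≤ ∑ E ∈ P.powerset, C E * ∏ p ∈ E, g p)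

/-- **LOW** (medium, long).  From CHS.PA, RLS.LA, RLS.SI, RLS.CT, EXV.  Take `c⁻`, `c⁺` from `WLo`, `WUp` (primes of `PB x h`) and
Rosser's weights `λ^± = lam false/true Ld`, `λ_q = lam true (Ld - log q)` on the sets of primes of `PB h Z`.  Write a subset
`F` of `PB x Y` as `E ∪ K ∪ Q`, `E ⊆ PB x h`, `K ⊆ PB h Z`, `Q ⊆ PB Z Y` and put
`C F = c⁺(E) λ⁻(K) - (c⁺(E) - c⁻(E)) λ⁺(K)` if `Q = ∅`, `-(1/2) c⁺(E) λ_q(K)` if `Q = {q}`, `0` otherwise;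
`C' F = c⁺(E)(2λ⁺(K) - λ⁻(K)) + (c⁺(E) - c⁻(E)) λ⁺(K)` if `Q = ∅`, `(1/2) c⁺(E) λ_q(K)` if `Q = {q}`, `0` otherwise (and both `0` if
`¬ F ⊆ PB x Y`).  Level: `∑_E log ≤ m₀`; `∑_K log p ≤ Ld` resp. `≤ Ld - log q` if the weight is not `0` (CT with `al = L`, `be = 0`;
`2 log p ≤ 2Z ≤ Ld`).  For `Γ ⊆ PB x Y` with parts `Γ₀`, `Γ₁`, `Γ₂` let `S^±`, `R^±`, `R_q` be the sums over the subsets of `Γ₀`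
resp. `Γ₁`: `∑_{F ⊆ Γ} C F = [S⁺R⁻ - (S⁺ - S⁻)R⁺] - (1/2) ∑_{q ∈ Γ₂} S⁺ R_q`.  `S⁻ ≤ [Γ₀ = ∅] ≤ S⁺`, `S⁺(∅) = 1` (`|c⁺ ∅| ≤ 1`),
`R⁻ ≤ [Γ₁ = ∅]`, `R⁺, R_q ≥ 0`, all `= 1` for `Γ₁ = ∅`.  If `Γ₀ ∪ Γ₁ ≠ ∅` the bracket is `≤ 0` (`S⁺(R⁻ - R⁺) + S⁻R⁺`, and for
`Γ₀ = ∅`: `R⁻ - (1 - S⁻)R⁺`); otherwise the value is `S⁻ - |Γ₂|/2 ≤ 1 - |Γ₂|/2`, `Γ₂ = Γ`.  Majorant: `|R⁻| ≤ 2R⁺ - R⁻`.  Main
terms: `M^± = ∑ c^± g`, `V ≤ M⁺ ≤ V(1+δ)`, `V(1-δ) ≤ M⁻` (EXV), `SS true ≥ 0` (EXV, SI):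
`∑ C g = M⁺ SS⁻ - (M⁺ - M⁻) SS⁺ - (1/2) M⁺ ∑_q g(q) SS_q`, `∑ C' g = M⁺(2SS⁺ - SS⁻) + (M⁺ - M⁻)SS⁺ + (1/2) M⁺ ∑_q g(q) SS_q`. -/
def LOW_stmt : Prop := ∀ x h Z Y Ld m₀ δ : ℝ, 2 ≤ x → x ≤ h → h ≤ Z → Z ≤ Y → 2 * Z ≤ Ld → Y + Z ≤ Ld → 0 ≤ δ → δ ≤ 1 →
  WLo x h m₀ δ → WUp x h m₀ δ → 0 ≤ SS false gg Ld (PB h Z) →
  ∃ C C' : Finset ℕ → ℝ, (∀ F, |C F| ≤ 3 ∧ |C' F| ≤ 5) ∧
    (∀ F, C F ≠ 0 ∨ C' F ≠ 0 → F ⊆ PB x Y ∧ ∑ p ∈ F, Real.log p ≤ m₀ + Ld) ∧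
    (∀ Γ ⊆ PB x Y, ∑ F ∈ Γ.powerset, C F ≤ if Γ ∩ PB x Z = ∅ then 1 - 1 / 2 * (#Γ : ℝ) else 0) ∧
    (∀ Γ ⊆ PB x Y, |∑ F ∈ Γ.powerset, C F| ≤ ∑ F ∈ Γ.powerset, C' F) ∧
    CHS.V (PB x h) * (SS false gg Ld (PB h Z) - 2 * δ * SS true gg Ld (PB h Z) -
        1 / 2 * (1 + δ) * ∑ q ∈ PB Z Y, gg q * SS true gg (Ld - Real.log q) (PB h Z)) ≤
      ∑ F ∈ (PB x Y).powerset, C F * CHS.g F ∧
    ∑ F ∈ (PB x Y).powerset, C' F * CHS.g F ≤ CHS.V (PB x h) * (1 + δ) * (4 * SS true gg Ld (PB h Z) +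
        1 / 2 * ∑ q ∈ PB Z Y, gg q * SS true gg (Ld - Real.log q) (PB h Z))

/-- **UPW** (medium).  From CHS.PA, RLS.LA, RLS.SI, RLS.CT, EXV.  As LOW: `C F = c⁺(E) λ⁺(K)` for `F = E ∪ K ⊆ PB x Z`; value
`S⁺ R⁺ ≥ [Γ₀ = ∅][Γ₁ = ∅]`. -/
def UPW_stmt : Prop := ∀ x h Z Ld m₀ δ : ℝ, 2 ≤ x → x ≤ h → h ≤ Z → Z ≤ Ld → 0 ≤ δ → WUp x h m₀ δ →
  ∃ C : Finset ℕ → ℝ, (∀ F, |C F| ≤ 1) ∧
    (∀ F, C F ≠ 0 → F ⊆ PB x Z ∧ ∑ p ∈ F, Real.log p ≤ m₀ + Ld) ∧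
    (∀ Γ ⊆ PB x Z, (if Γ = ∅ then (1 : ℝ) else 0) ≤ ∑ F ∈ Γ.powerset, C F) ∧
    ∑ F ∈ (PB x Z).powerset, C F * CHS.g F ≤ CHS.V (PB x h) * (1 + δ) * SS true gg Ld (PB h Z)

/-! ## Part B: numerics of the linear sieve -/

/-- upper and lower bounds of `10^12 log ((r+1)/r)` -/
def lup (r : ℕ) : ℕ := (10 ^ 12 * (2 * r + 1)) / (2 * r * (r + 1)) + 1
def ldn (r : ℕ) : ℕ := (2 * 10 ^ 12) / (2 * r + 1)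

/-- `∑_{k < n} ldn (a + k)` -/
def sdn (a : ℕ) : ℕ → ℕ
  | 0 => 0
  | n + 1 => sdn a n + ldn (a + n)

/-- The lower bound of `10^12 H(16/3)`: `n` steps from `i`; `Ll` = lower bound of `10^12 log ((i-600)/300)`, `G` = lower
bound of `10^12 G(i/300)`, `acc` = lower bound of `10^12 H(i/300 + 1)`, where `G s = s F s / A`, `H s = s f s / A`. -/
def goH : ℕ → ℕ → ℕ → ℕ → ℕ → ℕ
  | 0, _, _, _, acc => acc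
  | n + 1, i, Ll, G, acc =>
    goH n (i + 1) (Ll + ldn (i - 600)) (G + Ll * ldn (i - 300) / 10 ^ 12) (acc + G * ldn i / 10 ^ 12)

/-- The upper bound of `10^12 · 2w`: `n` steps from `i ≥ 900`; `Lu` = upper bound of `10^12 log ((i-599)/300)`, `G` = upper bound
of `10^12 G(i/300)`. -/
def goW : ℕ → ℕ → ℕ → ℕ → ℕ → ℕ
  | 0, _, _, _, acc => acc
  | n + 1, i, Lu, G, acc =>
    goW n (i + 1) (Lu + lup (i - 599)) (G + Lu * lup (i - 300) / 10 ^ 12 + 1)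
      (acc + 1600 * G * lup (1599 - i) / (i * 10 ^ 12) + 1)

/-- the part `600 ≤ i < 900` (`G = 1`) -/
def goW0 : ℕ → ℕ → ℕ → ℕ
  | 0, _, acc => acc
  | n + 1, i, acc => goW0 n (i + 1) (acc + 1600 * lup (1599 - i) / i + 1)

/-- the two kernel checks (helper26): see Ker.lean -/
def KER_stmt : Prop := 1495 * 10 ^ 9 ≤ goH 400 900 0 (10 ^ 12) (sdn 300 600) ∧
  goW 400 900 (lup 300) (10 ^ 12) (goW0 300 600 0) ≤ 2098 * 10 ^ 9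

/-- **NHL** (medium).  From KER.  `1/(r+1) ≤ ...`: `2/(2r+1) ≤ log ((r+1)/r)` (the function `log (1+x) - 2x/(2+x)` is increasing; or
`Real.log`-inequalities of Mathlib).  `s F s` is nondecreasing on `[3, u]` (`Fi`, `f ≥ 0`).  Invariant of `goH` at `i` (`900 ≤ i ≤ 1300`):
`Ll ≤ 10^12 log ((i-600)/300)`, `A G ≤ 10^12 (i/300) F(i/300)`, `A acc ≤ 10^12 (i/300+1) f(i/300+1)`.  Start: `3 F 3 = A`, `4 f 4 = A log 3`,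
`sdn 300 600 ≤ 10^12 log 3`.  Step: `(i+1)/300 F - i/300 F = ∫ f(t-1) dt`, `f(t-1) = A log (t-2)/(t-1) ≥ A (Ll/10^12)/(t-1)` on
`[i/300, (i+1)/300]`, `∫ dt/(t-1) = log ((i-299)/(i-300))`; and `((i+1)/300+1) f - (i/300+1) f = ∫_{i/300+1}^{(i+1)/300+1} F(t-1) dt
= ∫_{i/300}^{(i+1)/300} (s F s)/s ds ≥ (i/300) F(i/300) log ((i+1)/i)`. -/
def NHL_stmt : Prop := ∀ (u A : ℝ) (F f : ℝ → ℝ), 6 ≤ u → Dat u A F f →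
  A * (1495 / 1000) ≤ 16 / 3 * f (16 / 3)

/-- **NWU** (medium).  From KER.  `log ((r+1)/r) ≤ (2r+1)/(2r(r+1))` (for `u ≥ 0`: `log (1+u) ≤ u(2+u)/(2(1+u))`).  Invariant of `goW` at `i`
(`900 ≤ i ≤ 1300`): `10^12 log ((i-599)/300) ≤ Lu`, `10^12 (i/300) F(i/300) ≤ A G` and
`10^12 ∑_{600 ≤ j < i} 16/3 F(j/300) log ((1600-j)/(1599-j)) ≤ A acc`.  For `j < 900` (`j ≥ 600`): `F(j/300) = 300 A/j`;
`16/3 · 300/j = 1600/j`.  Step for `G`: `∫_{i/300}^{(i+1)/300} f(t-1) dt ≤ A log ((i+1)/300 - 2) log ((i-299)/(i-300))`. -/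
def NWU_stmt : Prop := ∀ (u A : ℝ) (F f : ℝ → ℝ), 6 ≤ u → Dat u A F f →
  ∑ i ∈ Ico (600 : ℕ) 1300, 16 / 3 * F ((i : ℝ) / 300) * Real.log ((1600 - (i : ℝ)) / (1599 - i)) ≤
    A * (2098 / 1000)

/-- **WSM** (medium).  From CHS.PA, CHS.SG, NWU.  `Z = 3/16 Ld`, `Y = 5/8 Ld`.  `PB Z Y` is the disjoint union of the blocks
`PB (Ld - (i+1) Z/300) (Ld - i Z/300)`, `600 ≤ i < 1300` (`Ld - 2Z = Y`, `Ld - 13/3 Z = Z`).  On the block of `i`: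
`(Ld - log q)/Z > i/300`, `≤ 13/3`, so `F ≤ F(i/300)`; `sig ≤ log ((1600-i)/(1599-i)) + 2/Z` (SG).  `F ≤ 4` on `[2, 13/3]` (`F s ≤ F 3 = A/3`
for `s ≥ 3`), so the errors are at most `700 · 16/3 · 4 · 2/Z ≤ eps` for `Ld` large. -/
def WSM_stmt : Prop := ∀ (u A : ℝ) (F f : ℝ → ℝ), 6 ≤ u → Dat u A F f → ∀ eps : ℝ, 0 < eps →
  ∃ L₀ : ℝ, ∀ Ld : ℝ, L₀ ≤ Ld →
  ∑ q ∈ PB (3 / 16 * Ld) (5 / 8 * Ld), gg q * (16 / 3 * F ((Ld - Real.log q) / (3 / 16 * Ld))) ≤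
    A * (2098 / 1000) + eps

/-! ## Part C: the weights on natural numbers -/

/-- `D' = log D = 0.499 log N` -/
noncomputable def lD (N : ℕ) : ℝ := 499 / 1000 * Real.log N
/-- the level `N^(1/2 - 1/2000)` -/
noncomputable def QL (N : ℕ) : ℝ := (N : ℝ) ^ (1 / 2 - 1 / 2000 : ℝ)
/-- exponent of `z` -/
noncomputable def az : ℝ := 3 / 16 * (499 / 1000)
/-- exponent of `y` -/
noncomputable def ay : ℝ := 5 / 8 * (499 / 1000)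
/-- exponent of `z₂` -/
noncomputable def a2 : ℝ := 1 / 2 * (499 / 1000)

/-- **FLM** (short, medium; fundamental lemma).  From `Pool.Agent.CHS.TBL` (helper27/CHS/Asm.lean, all its hypotheses are proved
in helper27/CHS/All.lean): take `j` with `w0 = h/(20·2^j) ∈ [10^6, 2·10^6)`, `x = 20 w0`; `WTail x h` for `m = 19`. -/
def FLM_stmt : Prop := ∃ h₀ : ℝ, ∀ h : ℝ, h₀ ≤ h → ∃ x : ℝ, 2 * 10 ^ 7 ≤ x ∧ x ≤ 4 * 10 ^ 7 ∧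
  WLo x h (19 * h) (600 / 3 ^ 19) ∧ WUp x h (19 * h) (600 / 3 ^ 19)

/-- **MTN** (medium).  From CHS.PA, CHS.SG, RLS.DP, EXV, CPB, LOW, UPW, NHL, WSM.  The main terms.  `u = 20000`, `Dat u A F f`
(RLS.DP), `h = Ld/19960` (`Ld ≤ u h`), `m₀ = 19 h`, `δ = 600/3^19`, `Z = 3/16 Ld`, `Y = 5/8 Ld`, `V = CHS.V (PB x h)`, `eps` small:
`SS false gg Ld (PB h Z) ≥ (h/Z)(f(16/3) - eps) ≥ (A h/Ld)(1.495 - 6 eps)` (`h/Z = (16/3) h/Ld`; NHL; in particular `≥ 0`),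
`∑_q gg q SS true (Ld - log q) (PB h Z) ≤ ∑ gg q (h/Z)(F(s_q) + eps) ≤ (h/Ld)(2.098 A + 20 eps)` (CPB with `L = Ld - log q ≥ 2Z`;
WSM; `∑ gg q ≤ log (10/3) + 1`), `SS true gg Ld (PB h Z) ≤ (h/Z)(A/3 + eps) ≤ 2 A h/Ld`,
`SS true gg Ld (PB h (Ld/2)) ≤ (2h/Ld)(F 2 + eps) ≤ (h/Ld)(A + 2 eps)`.  With `C, C'` of LOW and `C₂` of UPW (`Z = Ld/2`; for
`Γ ⊆ PB x Y` the subsets of `Γ ∩ PB x (Ld/2)`): `∑ C g - 0.445 ∑ C₂ g ≥ V (h/Ld)(A (1.495 - 1.049 - 0.445) - small)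
≥ V (h/Ld)/1000`, `A ≥ 3`; `∑ C' g ≤ 40 V h/Ld`, `0 ≤ ∑ C₂ g ≤ 8 V h/Ld` (EXV). -/
def MTN_stmt : Prop := ∃ Λ₀ : ℝ, ∀ x Ld : ℝ, Λ₀ ≤ Ld → 2 * 10 ^ 7 ≤ x → x ≤ 4 * 10 ^ 7 →
  WLo x (Ld / 19960) (19 * (Ld / 19960)) (600 / 3 ^ 19) → WUp x (Ld / 19960) (19 * (Ld / 19960)) (600 / 3 ^ 19) →
  ∃ C C' C₂ : Finset ℕ → ℝ, (∀ F, |C F| ≤ 3 ∧ |C' F| ≤ 5 ∧ |C₂ F| ≤ 1) ∧
    (∀ F, C F ≠ 0 ∨ C' F ≠ 0 ∨ C₂ F ≠ 0 → F ⊆ PB x (5 / 8 * Ld) ∧ ∑ p ∈ F, Real.log p ≤ 19 * (Ld / 19960) + Ld) ∧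
    (∀ Γ ⊆ PB x (5 / 8 * Ld), ∑ F ∈ Γ.powerset, C F ≤
      if Γ ∩ PB x (3 / 16 * Ld) = ∅ then 1 - 1 / 2 * (#Γ : ℝ) else 0) ∧
    (∀ Γ ⊆ PB x (5 / 8 * Ld), |∑ F ∈ Γ.powerset, C F| ≤ ∑ F ∈ Γ.powerset, C' F) ∧
    (∀ Γ ⊆ PB x (5 / 8 * Ld), (if Γ ∩ PB x (1 / 2 * Ld) = ∅ then (1 : ℝ) else 0) ≤ ∑ F ∈ Γ.powerset, C₂ F) ∧
    CHS.V (PB x (Ld / 19960)) / 10 ^ 8 ≤ ∑ F ∈ (PB x (5 / 8 * Ld)).powerset, C F * CHS.g F -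
      445 / 1000 * ∑ F ∈ (PB x (5 / 8 * Ld)).powerset, C₂ F * CHS.g F ∧
    ∑ F ∈ (PB x (5 / 8 * Ld)).powerset, C' F * CHS.g F ≤ CHS.V (PB x (Ld / 19960)) ∧
    0 ≤ ∑ F ∈ (PB x (5 / 8 * Ld)).powerset, C₂ F * CHS.g F ∧
    ∑ F ∈ (PB x (5 / 8 * Ld)).powerset, C₂ F * CHS.g F ≤ CHS.V (PB x (Ld / 19960))

open Classical in
/-- **SLW** (medium, long; the certificate).  From CHS.PA, CHS.VB, CHS.SL, CHS.MN, FLM, MTN.  `Ld = lD N`, `h = Ld/19960`, `x` from FLM,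
MN for `C/8`, `C'/8`, `C₂/8` with `H = Y = 5/8 Ld`, `B = 19h + Ld` (`∏_{P0 x} q ≤` const, as `x ≤ 4·10^7`, and
`exp B = N^(0.499 + 0.499·19/19960) = N^(0.499475)`), `l₁ = 8 l` etc.  `N^az = exp (3/16 Ld)` etc.  For `a ≥ 1` put
`Γ = (PB x Y).filter (· ∣ a)`.  If `a` has a prime factor `q ≥ 7` with `log q < x` all three sums are `0` (MN), otherwise
`wt l₁ a = ∑_{F ⊆ Γ} C F` etc.; `Γ ∩ PB x Z = ∅` iff no prime `7 ≤ q < z` divides `a`, and then `Γ` is the set of prime factors in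
`[z, y)`.  (In the first case the right side for `l₁` is `0`, for `l₂` it is `0`; `|0| ≤ 0`.)  Main terms:
`mt (QL N) l = 8 V(P0 x) ∑ (C/8) g`; `V(PB x h) ≥ x/(8h)` (VB), `V(PB x h) ≤ exp (-sig x h) ≤ (x/h) exp (C/x)` (SL),
`V(P0 x) ≥ V(P0 (4·10^7)) > 0`, `≤ 1`; `h = 0.499 log N/19960`. -/
def SLW_stmt : Prop := ∃ c₀ K : ℝ, 0 < c₀ ∧ 0 < K ∧ ∃ N₀ : ℕ, ∀ N : ℕ, N₀ ≤ N → ∃ l₁ l' l₂ : ℕ → ℝ,
  Adm 8 (QL N) l₁ ∧ Adm 8 (QL N) l' ∧ Adm 8 (QL N) l₂ ∧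
  (∀ a : ℕ, 1 ≤ a → wt l₁ a ≤
    if ∃ q : ℕ, q.Prime ∧ q ∣ a ∧ 7 ≤ q ∧ (q : ℝ) < (N : ℝ) ^ az then 0
    else 1 - 1 / 2 * (#(a.primeFactors.filter fun q : ℕ => (N : ℝ) ^ az ≤ (q : ℝ) ∧ (q : ℝ) < (N : ℝ) ^ ay) : ℝ)) ∧
  (∀ a : ℕ, 1 ≤ a → |wt l₁ a| ≤ wt l' a) ∧
  (∀ a : ℕ, 1 ≤ a → (if ∃ q : ℕ, q.Prime ∧ q ∣ a ∧ 7 ≤ q ∧ (q : ℝ) < (N : ℝ) ^ a2 then (0 : ℝ) else 1) ≤ wt l₂ a) ∧
  mt (QL N) l' ≤ K / Real.log N ∧ 0 ≤ mt (QL N) l₂ ∧ mt (QL N) l₂ ≤ K / Real.log N ∧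
  c₀ / Real.log N ≤ mt (QL N) l₁ - 445 / 1000 * mt (QL N) l₂

end Pool.Agent.EC
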