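import Pool.Agent.helper62.W3.SpecA
import Pool.Agent.helper26.EC.SpecS

/-!
# Project EC (MP_5628fe_nt), block P of the engine: edges by positivity, products (rows `ec:XX`)

RULES as in SpecS.lean, but `import Pool.Agent.helper26.EC.SpecE` (it imports helper62/W3/SpecA.lean, block L; statements of
SpecA, SpecS may be hypotheses where named).  Plan of helper62.  The functions `|edg|` (primes) and `TLe` (products) are supported on the rough `j` which have a rough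
divisor `d` near `N`; the other factor `j/d` (length about `N²`, so `N` values in the window) is replaced by a smooth variable by
an upper bound sieve, and the interaction of the two sieves is controlled by positivity (CRR).
-/

set_option autoImplicit false

namespace Pool.Agent.EC

open Finset ArithmeticFunction
open Pool.Agent.CH (Win rgh dl eU Mo ClP ClB)
open Pool.Agent.CHS (PB WUp)

/-- the primes of `[7, Q]` -/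
noncomputable def PQ (Q : ℝ) : Finset ℕ := (Icc 7 ⌊Q⌋₊).filter Nat.Prime

/-! ## Part P1: two sieves together -/

/-- **MTE** (short, medium).  From nothing (compare EXV, Pool/Agent/helper77/EC/EXV.lean).  Exchange the sums: `A = D ∪ A'` with
`A' ⊆ P \ D`, and `∑_{A' ⊆ P \ D} ∏_{A'} g ∏_{(P \ D) \ A'} (1 - g) = 1` (`Finset.prod_add`). -/
def MTE_stmt : Prop := ∀ (P : Finset ℕ) (g : ℕ → ℝ) (ξ : Finset ℕ → ℝ),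
  ∑ D ∈ P.powerset, ξ D * ∏ p ∈ D, g p = Eg P g (fun A => ∑ D ∈ A.powerset, ξ D)

/-- **MTP** (medium).  From nothing.  The squarefree `m ≤ Q` prime to `30` correspond to the sets `m.primeFactors ⊆ PQ Q'`
(`φ(m) = ∏ (p-1)`; for `D ⊆ PQ Q'` with `∏ D > Q` we have `l (∏ D) = 0`); `∏ D ∣ a` iff all elements of `D` divide `a`. -/
def MTP_stmt : Prop :=
  (∀ (K Q Q' : ℝ) (l : ℕ → ℝ), Adm K Q l → Q ≤ Q' →
    mt Q l = ∑ D ∈ (PQ Q').powerset, l (∏ p ∈ D, p) * ∏ p ∈ D, 1 / ((p : ℝ) - 1)) ∧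
  ∀ (K Q Q' : ℝ) (l : ℕ → ℝ), Adm K Q l → Q ≤ Q' → ∀ a : ℕ, 1 ≤ a →
    wt l a = ∑ D ∈ ((PQ Q').filter (· ∣ a)).powerset, l (∏ p ∈ D, p)

/-- **CPD** (short, medium).  From MTE.  The subsets of `P` disjoint from `S` are the subsets of `P \ S`; MTE for `P \ S` gives
`∏_{p ∈ S} (1 - g p) · ∑ = ∑_{A ⊆ P \ S} (weight of A in Eg P g) F(A)`, `F(A) = ∑_{D ⊆ A} ξ D ≥ 0`, a part of the sum `Eg P g F` of terms `≥ 0`. -/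
def CPD_stmt : Prop := ∀ (P S : Finset ℕ) (g : ℕ → ℝ) (ξ : Finset ℕ → ℝ), (∀ p ∈ P, 0 ≤ g p ∧ g p ≤ 1) → S ⊆ P →
  (∀ A ⊆ P, 0 ≤ ∑ D ∈ A.powerset, ξ D) →
  (∏ p ∈ S, (1 - g p)) * ∑ D ∈ P.powerset with Disjoint D S, ξ D * ∏ p ∈ D, g p ≤
    ∑ D ∈ P.powerset, ξ D * ∏ p ∈ D, g p

/-- **CRR** (medium).  From MTE.  (1) Put `F(A) = ∑_{D ⊆ A} ξ D`, `G(B) = ∑_{D ⊆ B} η D`.  The left side is
`∑_{(A,B) disjoint} ∏_{p ∈ A ∪ B} (1/p) ∏_{p ∈ P \ (A ∪ B)} (1 - 2/p) F(A) G(B)` (every prime is in `A` with probability `1/p`, in `B` with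
probability `1/p`, independently; for disjoint `D, D'` the probability of `D ⊆ A`, `D' ⊆ B` is `∏_{D ∪ D'} 1/p`, for `D, D'` not disjoint it is `0`; e.g. by induction on
`P`, or with `Finset.prod_add` twice: `A ⊇ D`, `B ⊇ D'`).  For disjoint `A, B` the weight is exactly
`∏_{p ∈ P} c_p · w(A) w(B)`, `c_p = (p-1)²/(p(p-2))`, `w(A) = ∏_{A} 1/(p-1) ∏_{P \ A} (1 - 1/(p-1))`: for `p ∈ A ∪ B`:
`c_p (1/(p-1)) ((p-2)/(p-1)) = 1/p`, otherwise `c_p ((p-2)/(p-1))² = (p-2)/p`.  Now drop the condition `Disjoint A B` (all terms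
`≥ 0`) and use MTE for `ξ` and for `η`, `g = 1/(p-1)`.
(2) `c_n ≥ 1`, so `∏_{p ∈ P} c_p ≤ ∏_{n=3}^{M} (n-1)²/(n(n-2)) = 2(M-1)/M ≤ 2` (telescoping). -/
def CRR_stmt : Prop := (∀ (P : Finset ℕ) (ξ η : Finset ℕ → ℝ), (∀ p ∈ P, 3 ≤ p) →
    (∀ A ⊆ P, 0 ≤ ∑ D ∈ A.powerset, ξ D) → (∀ A ⊆ P, 0 ≤ ∑ D ∈ A.powerset, η D) →
    ∑ w ∈ P.powerset ×ˢ P.powerset with Disjoint w.1 w.2,
        ξ w.1 * η w.2 / ((∏ p ∈ w.1, (p : ℝ)) * ∏ p ∈ w.2, (p : ℝ)) ≤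
      (∏ p ∈ P, ((p : ℝ) - 1) ^ 2 / (p * (p - 2))) *
        ((∑ D ∈ P.powerset, ξ D * ∏ p ∈ D, 1 / ((p : ℝ) - 1)) *
          ∑ D ∈ P.powerset, η D * ∏ p ∈ D, 1 / ((p : ℝ) - 1))) ∧
  ∀ P : Finset ℕ, (∀ p ∈ P, 3 ≤ p) → ∏ p ∈ P, ((p : ℝ) - 1) ^ 2 / (p * (p - 2)) ≤ 2

/-- **CRD** (medium).  From MTP, MTA, CPD, CRR.  `P = PQ (max Q Q')`, `S = P.filter (· ∣ d)`, `ξ D = if Disjoint D S then l (∏ D) else 0`,
`η D = lam (∏ D)`.  For `A ⊆ P`: `∑_{D ⊆ A} ξ D = ∑_{D ⊆ A \ S} l (∏ D) = wt l (∏ (A \ S)) ≥ 0`, `∑_{D ⊆ A} η D = wt lam (∏ A) ≥ 0` (MTP (2)).  The left side is the sum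
over disjoint `D, D'` of `ξ D η D'/(∏ D ∏ D')` (`m = ∏ D` squarefree; `(m,d) = 1` iff `D` and `S` are disjoint; `(m,t) = 1` iff `D` and `D'` are disjoint;
terms with `∏ D > Q` are `0`).  CRR; `∑ ξ D ∏_D 1/(p-1) = ∑_{D disjoint from S} l(∏ D) ∏_D 1/(p-1) ≤ ∏_{p ∈ S} (p-1)/(p-2) · mt Q l` (CPD, MTP (1)),
`S ⊆ d.primeFactors`, all prime factors of `d` are `≥ 7`, the factors are `≥ 1`, `mt Q l ≥ 0`, `mt Q' lam ≥ 0` (MTA). -/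
def CRD_stmt : Prop := ∀ (K Q K' Q' : ℝ) (l lam : ℕ → ℝ) (d : ℕ), Adm K Q l → Adm K' Q' lam → 1 ≤ d →
  Nat.Coprime d 30 → (∀ a : ℕ, 1 ≤ a → 0 ≤ wt l a) → (∀ a : ℕ, 1 ≤ a → 0 ≤ wt lam a) →
  ∑ m ∈ Icc 1 ⌊Q⌋₊ with Nat.Coprime m d, ∑ t ∈ Icc 1 ⌊Q'⌋₊ with Nat.Coprime m t, l m * lam t / ((m : ℝ) * t) ≤
    2 * (∏ p ∈ d.primeFactors, ((p : ℝ) - 1) / (p - 2)) * (mt Q l * mt Q' lam)

/-- **UPS** (medium; upper bound sieve, any level).  From CHS.PA, CHS.SL, FLM (compare SLW, Pool/Agent/helper75/EC/SLW.lean, where the passage from weights on sets to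
weights on numbers is carried out).  `h = log z/19 ≥ h₀`, `x` from FLM, `c` from `WUp x h (19 h) δ`, `δ ≤ 1`; `lam m = c (m.primeFactors)` if `m`
is squarefree and `m.primeFactors ⊆ PB x h`, `0` otherwise.  Level: `∑_{p ∈ F} log p ≤ 19 h = log z`.  `wt lam a = ∑_{F ⊆ (PB x h).filter (· ∣ a)} c F ≥ 0`, and
`≥ 1` if the set is empty, e.g. if all prime factors of `a` are `> z ≥ e^h`.  `mt z lam = ∑_F c F g F ≤ 2 V (PB x h) ≤ 2 exp (-sig x h) ≤ 2 (x/h) exp (C/x)`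
(SL), `x ≤ 4·10^7`.  All elements of `PB x h` are primes `≥ e^x > 7`. -/
def UPS_stmt : Prop := ∃ C z₀ : ℝ, 0 < C ∧ 2 ≤ z₀ ∧ ∀ z : ℝ, z₀ ≤ z → ∃ lam : ℕ → ℝ, Adm 1 z lam ∧
  (∀ a : ℕ, 1 ≤ a → 0 ≤ wt lam a) ∧ (∀ a : ℕ, rgh z a → 1 ≤ wt lam a) ∧ mt z lam ≤ C / Real.log z

/-! ## Part P2: the window -/

/-- **LCT** (short, medium).  From TRA.  If a prime `p` divides `m` and `e` then `p ∣ j` and `p ∣ j ± 6`, so `p ∣ 6`, contradiction: the sum is empty.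
Otherwise `30, e, m` are coprime in pairs and the conditions are `j ≡ ρ mod 30 e m`. -/
def LCT_stmt : Prop := ∃ C : ℝ, 0 < C ∧ ∀ N e m a : ℕ, 4 ≤ N → 1 ≤ e → 1 ≤ m → Nat.Coprime e 30 → Nat.Coprime m 30 →
  a < 30 →
  |∑ j ∈ Win N with e ∣ j ∧ m ∣ j + 6 ∧ j % 30 = a, fN N j -
      (if Nat.Coprime m e then XN N / (30 * (e : ℝ) * m) else 0)| ≤ C ∧
  |∑ j ∈ Win N with e ∣ j ∧ m ∣ j - 6 ∧ j % 30 = a, fN N j -
      (if Nat.Coprime m e then XN N / (30 * (e : ℝ) * m) else 0)| ≤ C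

open Classical in
/-- **COR** (medium, LONG).  From LCT, CRD, UPS, TRB, MTA.  `Q = N^(1/2-ε)`, `lam` from UPS (`z ≥ yN N ≥ z₀` for large `N`).  `fN ≥ 0`, `wt l (j ± 6) ≥ 0`
(`j ± 6 ≥ 1`) and `1[rgh z (j/d)] ≤ wt lam (j/d)`; `d ∣ j` and `t ∣ j/d` iff `d t ∣ j`.  So the sum is at most
`∑_{m ≤ Q} ∑_{t ≤ z} l m lam t ∑_{j ∈ Win, dt ∣ j, m ∣ j ± 6, j % 30 = a} fN j`; `m`, `t` with `l m lam t ≠ 0` and `d` (`rgh z d`, `z ≥ 5`) are prime to `30`.  For `a ≥ 30` the sum is empty.  By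
LCT it is `XN/(30 d) ∑_{(m,d)=1} ∑_{(m,t)=1} l m lam t/(m t) + O(C K Q z)`, `Q z ≤ N^(11/20)`.  CRD, `∏_{p ∣ d} (p-1)/(p-2) ≤ 2` (`≤ exp (ω(d)/(z-2))`,
`ω(d) ≤ log d/log 2`, `z ≥ exp ((log N)^(19/20))`), `mt z lam ≤ C_U/log z`, `mt Q l ≥ 0`, `XN ≤ 4N²`: `C₀ = C_U` suffices. -/
def COR_stmt : Prop := ∃ C₀ : ℝ, 0 < C₀ ∧ ∀ ε K : ℝ, 0 < ε → 0 < K → ∃ N₀ : ℕ, ∀ N : ℕ, N₀ ≤ N → ∀ z : ℝ,
  yN N ≤ z → z ≤ (N : ℝ) ^ (1 / 20 : ℝ) → ∀ l : ℕ → ℝ, Adm K ((N : ℝ) ^ (1 / 2 - ε)) l →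
  (∀ a : ℕ, 1 ≤ a → 0 ≤ wt l a) → ∀ d a : ℕ, (d : ℝ) ≤ (N : ℝ) ^ (6 / 5 : ℝ) → rgh z d →
  ∑ j ∈ Win N with d ∣ j ∧ rgh z (j / d) ∧ j % 30 = a, fN N j * wt l (j + 6) ≤
      C₀ * (N : ℝ) ^ 2 / (d * Real.log z) * mt ((N : ℝ) ^ (1 / 2 - ε)) l + (N : ℝ) ^ (9 / 10 : ℝ) ∧
  ∑ j ∈ Win N with d ∣ j ∧ rgh z (j / d) ∧ j % 30 = a, fN N j * wt l (j - 6) ≤
      C₀ * (N : ℝ) ^ 2 / (d * Real.log z) * mt ((N : ℝ) ^ (1 / 2 - ε)) l + (N : ℝ) ^ (9 / 10 : ℝ)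

/-! ## Part P3: the edge function of the primes -/

open Classical in
/-- **RCS** (short, medium).  From CH.RC.  Blocks `(u, 2u]`, at most `C'' log log N` of them: `∑ 1/c ≤ (1/u)(1 + 2 C u/log y) ≤ 3C/log y`,
`log y = dl N`. -/
def RCS_stmt : Prop := ∀ C : ℕ, ∃ C' : ℝ, 0 < C' ∧ ∃ N₀ : ℕ, ∀ N : ℕ, N₀ ≤ N →
  ∑ c ∈ (Icc 1 (UN C N)).filter (fun c : ℕ => (N : ℝ) / Real.log N ^ (2 * C) ≤ (c : ℝ) ∧ rgh (yN N) c), 1 / (c : ℝ) ≤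
    C' * Real.log (Real.log N) / dl N

open Classical in
/-- **EDG** (medium, short).  From nothing.  `edg C N j = -∑_{c ∣ j, c ≤ U} ∑_{b ∣ j/c, b ≤ U, (j/c)/b ≤ U} μ((j/c)/b) Λ(b)` (`eU`, CH/DefsW).  If the inner sum is not
empty then `c ≥ j/U² ≥ N³/(N L^C)² = N/L^(2C)`; it is at most `∑_{b ∣ j/c} Λ(b) = log (j/c) ≤ 3 log (N+1) ≤ 4 log N`. -/
def EDG_stmt : Prop := ∀ C : ℕ, ∃ N₀ : ℕ, ∀ N : ℕ, N₀ ≤ N → ∀ j ∈ Win N,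
  |edg C N j| ≤ if rgh (yN N) j then 4 * Real.log N *
    (#(j.divisors.filter fun c => (N : ℝ) / Real.log N ^ (2 * C) ≤ (c : ℝ) ∧ c ≤ UN C N) : ℝ) else 0

/-- **EDP** (medium, LONG; the statement is `EDP_stmt` of helper62/W3/SpecA.lean, theorem `EDP (..) : EDP_stmt`).  From COR, RCS, EDG, MTA.  (1) By EDG the sum is at most
`4 log N ∑_c ∑_{j % 30 = 1, c ∣ j, j rough} fN wt l (j+6)`, `c` over the rough numbers of `[N/L^(2C), U]`; `j/c` is rough; COR with `z = yN N`, `d = c ≤ U ≤ N^(6/5)`; RCS: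
`≤ 4 L (C₀ N²/dl N · (K/L) · C' log L/dl N + U N^(9/10))`, and `(dl N)² = L^(19/10)`.  (2) rough `j` are prime to `30`; COR with `l₁ = 1_{m = 1}` (`wt = 1`, `mt = 1`, `ε = 1/4`) for every class `a < 30`:
`≤ 120 L (C₀ N²/dl N · C' log L/dl N + U N^(9/10))`. -/
def EDPr_stmt : Prop := EDP_stmt

/-! ## Part P4: products -/

open Classical in
/-- the part of `TL` from the tuples with a prime in `[N^(1-3δ), N^(1+2δ))` -/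
noncomputable def TLe {r : ℕ} (N : ℕ) (a b : Fin r → ℝ) (δ : ℝ) (m : ℕ) : ℝ :=
  ∑ p ∈ (TUP N a b m).filter (fun p => ∃ i, (N : ℝ) ^ (1 - 3 * δ) ≤ (p i : ℝ) ∧ (p i : ℝ) < (N : ℝ) ^ (1 + 2 * δ)),
    vonMangoldt (m / ∏ i, p i)

/-- good tuples of intervals -/
def GdT {r : ℕ} (δ : ℝ) (a b : Fin r → ℝ) : Prop :=
  ∃ S : Finset (Fin r), 1 + δ ≤ ∑ i ∈ S, a i ∧ ∑ i ∈ S, b i ≤ 2 - δ

/-- **TLC** (medium; cells).  From nothing.  `δ₁ = min (1/10) (∑ a i - 1)/2`.  If some `b i ≤ a i` then `TL = 0` (`N ≥ 2`): no cells.  Otherwise cut each `[a i, b i)` into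
`k` equal parts of width `≤ δ/(r+1)`; cells `c` = choices of a part for every `i`; `AdT` holds for every cell.  The `TL` of the cells add up to `TL N a b m`
(the conditions on `p i` are disjoint and exhaustive).  Keep the good cells.  If the cell `(a', b')` is not good then every `S` has
`∑_S a' < 1 + δ` or `∑_S a' > 2 - 2δ` (`∑_S b' ≤ ∑_S a' + δ`).  Apply this to the partial sums `s_i = ∑_{i' < i} a' i'`: `s_0 = 0`, `s_r ≥ ∑ a i > 1 + δ`, so there is `i` with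
`s_i < 1 + δ`, `s_(i+1) > 2 - 2δ`, `a' i > 1 - 3δ`; and for `S = {i}` (`a' i ≤ 3/2 < 2 - 2δ`): `a' i < 1 + δ`, `b' i ≤ a' i + δ < 1 + 2δ`.  So all tuples of this cell
are counted in `TLe`. -/
def TLC_stmt : Prop := ∀ (r : ℕ) (a b : Fin r → ℝ), AdT a b → ∃ δ₁ : ℝ, 0 < δ₁ ∧ ∀ δ : ℝ, 0 < δ → δ ≤ δ₁ →
  ∃ (n : ℕ) (a' b' : Fin n → Fin r → ℝ), (∀ c, AdT (a' c) (b' c) ∧ GdT δ (a' c) (b' c)) ∧
    ∀ N m : ℕ, 2 ≤ N → TL N a b m ≤ ∑ c, TL N (a' c) (b' c) m + TLe N a b δ m ∧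
      ∑ c, TL N (a' c) (b' c) m ≤ TL N a b m

open Classical in
/-- **PPW** (medium).  From nothing.  If the term is not `0` then `n = m/∏ p i` is a prime power `q^k`, `k ≥ 2`, `n ≥ N³/N^(∑ b) = N^(2c₁)`, so `s² ∣ m` for `s = q^⌊k/2⌋`,
`s ≥ n^(1/3) ≥ N^(2c₁/3)`.  Number of such `m` in the window: `∑_{s ≥ Y} (#Win/s² + 1)`, `s ≤ (N+1)^(3/2)`: `≤ 10 N²/Y + 3N^(3/2)·2`.  Number of tuples
`≤ (#m.primeFactors)^r`, `Λ ≤ log m`, number of divisors: all `≤ N^(small)` (`Pool.Agent.helper9.Tors.divisor_bound`). -/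
def PPW_stmt : Prop := ∀ (r : ℕ) (a b : Fin r → ℝ), AdT a b → ∃ c : ℝ, 0 < c ∧ ∃ N₀ : ℕ, ∀ N : ℕ, N₀ ≤ N →
  ∑ m ∈ Win N, (∑ p ∈ (TUP N a b m).filter (fun p => ¬ (m / ∏ i, p i).Prime), vonMangoldt (m / ∏ i, p i)) *
    (#(m - 6).divisors : ℝ) ≤ (N : ℝ) ^ (2 - c)

open Classical in
/-- **TLM** (medium).  From nothing.  `κ < min (min_i a i) ((3 - ∑ b i)/2) (1/20)`.  For a tuple `p` of `TLe` with `n = m/∏ p i` prime: all prime factors of `m` are `> N^κ`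
(`p i ≥ N^(a i)`, `n ≥ N³/N^(∑ b)`); `m ≤ N^4` has at most `4/κ` prime factors, so there are at most `(4/κ)^r` tuples; `Λ ≤ 4 log N`; and `q = p i` is counted on the right.
Hence these tuples contribute at most `4 (4/κ)^r log N` if the set on the right is not empty. -/
def TLM_stmt : Prop := ∀ (r : ℕ) (a b : Fin r → ℝ), AdT a b → ∃ κ C : ℝ, 0 < κ ∧ κ ≤ 1 / 20 ∧ 0 < C ∧ ∃ N₀ : ℕ,
  ∀ N : ℕ, N₀ ≤ N → ∀ δ : ℝ, ∀ m ∈ Win N,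
  TLe N a b δ m ≤ C * Real.log N * (#(m.primeFactors.filter fun q : ℕ => ((N : ℝ) ^ (1 - 3 * δ) ≤ (q : ℝ) ∧
      (q : ℝ) < (N : ℝ) ^ (1 + 2 * δ)) ∧ rgh ((N : ℝ) ^ κ) m) : ℝ) +
    ∑ p ∈ (TUP N a b m).filter (fun p => ¬ (m / ∏ i, p i).Prime), vonMangoldt (m / ∏ i, p i)

/-- **EDT** (medium, LONG).  From COR, TLM, PPW, MTA, CH.MER.  `|wt l (m-6)| ≤ K #(m-6).divisors`: the second part of TLM contributes `≤ K N^(2-c)` (PPW).  First part: for every prime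
`q` of `[N^(1-3δ), N^(1+2δ))` COR with `d = q ≤ N^(6/5)`, `z = N^κ` (`m` rough implies `m/q` rough, `q > N^κ`), `a = 7`: at most
`C L (C₀ N²/(κ L) · (K/L) ∑_q 1/q + N^(1+2δ) N^(9/10))`, `∑_q 1/q ≤ log ((1+2δ)/(1-3δ)) + C_M/((1-3δ) L) ≤ 10δ + 2C_M/L` for `δ ≤ 1/50` (MER).  `κ`, `C`, `C₀` do not depend on `δ`. -/
def EDT_stmt : Prop := ∀ (r : ℕ) (a b : Fin r → ℝ), AdT a b → ∀ ε ε' K : ℝ, 0 < ε → 0 < ε' → 0 < K →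
  ∃ δ₀ : ℝ, 0 < δ₀ ∧ ∀ δ : ℝ, 0 < δ → δ ≤ δ₀ → ∃ N₀ : ℕ, ∀ N : ℕ, N₀ ≤ N → ∀ l : ℕ → ℝ,
  Adm K ((N : ℝ) ^ (1 / 2 - ε)) l → (∀ a : ℕ, 1 ≤ a → 0 ≤ wt l a) →
  mt ((N : ℝ) ^ (1 / 2 - ε)) l ≤ K / Real.log N →
  ∑ m ∈ Win N with m % 30 = 7, TLe N a b δ m * fN N m * wt l (m - 6) ≤ ε' * (N : ℝ) ^ 2 / Real.log N

/-- **TLF** (medium).  From nothing.  Let `S` be the set in `GdT`, `P_i` the primes of `[N^(a i), N^(b i))`.  `α k` = number of the `p` with `p i ∈ P_i` for `i ∈ S`, `p i = 1` for `i ∉ S`, `∏ p i = k`;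
`β k = ∑ Λ(k/∏ p i)` over the `p` with `p i = 1` for `i ∈ S`, `p i ∈ P_i` for `i ∉ S`, `∏ p i ∣ k`, if `N^(1+δ/2) ≤ k ≤ 64N³`, `0` otherwise.  The tuples of `TL` are the products `p' i * p'' i`.
If `α k ≠ 0` then `N^(1+δ) ≤ k < N^(2-δ)` (`∑_S a ≤ .. < ∑_S b`; `S` is not empty), so `j/k > N^(1+δ)` for `j > N³`.  `k ≤ N^4` has at most `4/κ` prime factors `≥ N^κ`, `κ = min a i`, so
both numbers of tuples are `≤ (4/κ)^r` (for `α` even `k < N²`), `Λ ≤ 4 log N`; both are `≤ (log N)²` for large `N`. -/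
def TLF_stmt : Prop := ∀ (r : ℕ) (a b : Fin r → ℝ), AdT a b → ∀ δ : ℝ, 0 < δ → GdT δ a b → ∃ N₀ : ℕ, ∀ N : ℕ, N₀ ≤ N →
  ∃ α β : ℕ → ℝ, (∀ k, α k ≠ 0 → (N : ℝ) ^ (1 + δ / 2) ≤ k) ∧ (∀ k, β k ≠ 0 → (N : ℝ) ^ (1 + δ / 2) ≤ k) ∧
    (∀ k, |α k| ≤ Real.log N ^ 2 ∧ |β k| ≤ Real.log N ^ 2) ∧ ∀ j ∈ Win N, TL N a b j = cvl α β j

/-- **GVT** (medium).  From TLF, BIM, KKD, SCT.  For `ε ≥ 1/2` replace `ε` by `1/4` (`Mo` grows).  `1[j ≡ a] = KK R + ks R`.  With `B, C` from BIM (exponent `A + 2`, `E = 4`;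
`N^(1+δ/2) ≥ N L^C`) and `R = ⌈L^B⌉₊`: `KK R = ∑_{i < I} kp (2^i R)`, `I ≤ 4L` (KKD), BIM for each `i`.  The part with `ks R`: SCT (`B + 1`, exponent `A + 2`), `∑_{m ≤ N} 1/φ(30m) ≤ C L`
(`BV1_sum_inv`); `(r' m, 30m) = 1` from ClB.  Compare LCE, BVE in helper62/W3/SpecA.lean and helper92/CH/BVW.lean. -/
def GVT_stmt : Prop := ∀ (r : ℕ) (a b : Fin r → ℝ), AdT a b → ∀ δ : ℝ, 0 < δ → GdT δ a b → ∀ (ε : ℝ) (A : ℕ), 0 < ε →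
  ∃ N₀ : ℕ, ∀ N : ℕ, N₀ ≤ N → ∀ r' : ℕ → ℕ, ClB r' →
  ∑ m ∈ Mo ((N : ℝ) ^ (1 / 2 - ε)), |∑ j ∈ Win N with j ≡ r' m [MOD 30 * m], TL N a b j * fN N j -
    1 / (Nat.totient (30 * m) : ℝ) * ∑ j ∈ Win N, TL N a b j * fN N j| ≤ (N : ℝ) ^ 2 / Real.log N ^ A

/-- **SWE** (medium; the statement is `SWI_stmt` of Defs, theorem `SWE (..) : SWI_stmt`).  From TLC, GVT, EDT, EXW, MTA, TRB.  `δ = min δ₀ δ₁` (EDT with `ε'/2`).  `wt l ≥ 0`,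
`fN ≥ 0`, so TLC gives `LHS ≤ ∑_c ∑_{m % 30 = 7} TL_c fN wt l (m-6) + ε'/2 N²/L`.  EXW with `w = TL_c fN` (class function `r'` with ClB), GVT with `A = 3` (for each of the `n` cells),
`|l m| ≤ K`: `≤ ∑_c (∑_{m ∈ Mo Q} l m/φ(30m)) ∑_j TL_c fN + n K N²/L³`; `l m = 0` for `m` not prime to `30`, `φ(30 m) = 8 φ(m)` otherwise, so `∑_{m ∈ Mo Q} l m/φ(30m) = mt Q l/8`;
`mt Q l ≥ 0` (MTA) and `∑_c TL_c ≤ TL`. -/
def SWE_stmt : Prop := SWI_stmt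

end Pool.Agent.EC
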